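import Pool.Agent.Lib.MP_226ef1_lc.U.Iface
import Pool.Agent.Lib.MP_226ef1_lc.U.Tools

/-!
# Module TA1 (Paper 4.1, parts (i) - (iv))
-/

set_option autoImplicit false

namespace Pool.Agent.Lib.MP_226ef1_lc.U.H86

open Pool.Agent.Lib.MP_226ef1_lc.U

/-- the long word with all letters -/
noncomputable def uu (l m : ℕ) : List (Option (Fin m)) :=
  (List.replicate (l + 1) ((Finset.univ : Finset (Option (Fin m))).toList ++
    (Finset.univ : Finset (Option (Fin m))).toList)).flatten

theorem uu_mem (l m : ℕ) (a : Option (Fin m)) : a ∈ uu l m := by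
  unfold uu
  rw [List.mem_flatten]
  refine ⟨_, List.mem_replicate.2 ⟨by omega, rfl⟩, ?_⟩
  simp

theorem uu_len (l m : ℕ) : l < (uu l m).length := by
  unfold uu
  have h : 1 ≤ ((Finset.univ : Finset (Option (Fin m))).toList ++
      (Finset.univ : Finset (Option (Fin m))).toList).length := by
    rw [List.length_append, Finset.length_toList]
    have : 0 < (Finset.univ : Finset (Option (Fin m))).card :=
      Finset.card_pos.2 ⟨none, Finset.mem_univ _⟩
    omega
  rw [List.length_flatten, List.map_replicate, List.sum_replicate]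
  simp only [smul_eq_mul]
  nlinarith

theorem uu_par (l m : ℕ) (p : Option (Fin m) → Prop) : par p (uu l m) = 0 := by
  unfold uu
  rw [par_flatten_replicate, par_append]
  have : (par p (Finset.univ : Finset (Option (Fin m))).toList +
      par p (Finset.univ : Finset (Option (Fin m))).toList) % 2 = 0 := by omega
  rw [this]
  simp

/-- short legit words -/
theorem legit_single (J : TS) {V : Type} (ty : V → V → ℕ) (a : Option V) : Legit J ty [a] := by
  refine ⟨?_, ?_⟩
  · unfold TS.L
    simp only [List.length_singleton]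
    omega
  · intro x y k h
    have := h.length_le
    simp [blk] at this

/-- words of length `L` that are not full are bad -/
theorem bad_of_not_full {J : TS} {τ : Tm} (hτ : InFam' J τ) {w : List ℕ} (hl : w.length = J.L)
    (hs : w.sum % 2 = 0) (hf : ¬ ∀ c ∈ τ.seeds, c ∈ w) : τ.bad w := by
  rcases hτ with h | h | ⟨r, _, _, h⟩ | ⟨r, _, _, h⟩ | ⟨r, k, _, _, h⟩
  · subst h
    exact Or.inl ⟨hl, hs, hf⟩
  · subst h
    exact Or.inl ⟨hl, hs, hf⟩
  · subst h
    exact Or.inl ⟨hl, hs, hf⟩
  · subst h
    exact Or.inl ⟨hl, hs, hf⟩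
  · subst h
    exact ⟨hl, hs, hf⟩

/-- the templates `Free(g)` have only even colours -/
theorem FR_even {J : TS} {g c : ℕ} (h : (FR J g).cols c) : c % 2 = 0 := by
  rcases h with ⟨i, hi, _⟩ | ⟨i, _, h⟩ | ⟨_, h, _⟩ | ⟨i, _, h⟩
  · omega
  · rw [h]; unfold kk; omega
  · exact h.elim
  · rw [h]; unfold oo; omega

theorem ta1 (hF : FamWfStatement) (hW : WStatement) : Ta1Statement := by
  classical
  intro J hJ m hm ty hty
  refine ⟨uu J.L m, ?_, ?_⟩
  · intro h
    have := uu_len J.L m
    rw [h] at this
    simp at this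
  intro τ hτ σ hσ hsep
  obtain ⟨hwf, hlen, _⟩ := hF J hJ τ hτ
  set u := uu J.L m with hu
  set P : Option (Fin m) → Prop := fun a => a ≠ none with hP
  have hul : J.L < u.length := uu_len J.L m
  have hunl : ¬ Legit J ty u := fun h => absurd h.1 (by omega)
  have hupar : par P u = 0 := uu_par J.L m P
  have humem : ∀ a, a ∈ u := uu_mem J.L m
  have hu'sum : (u.flatMap σ).sum % 2 = 0 := by
    rw [sum_flatMap_mod]
    exact uu_par J.L m _
  have hsub : ∀ v : List (Option (Fin m)), ∀ t, t ∈ v.flatMap σ → t ∈ u.flatMap σ := by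
    intro v t ht
    obtain ⟨a, _, hat⟩ := List.mem_flatMap.1 ht
    exact List.mem_flatMap.2 ⟨a, humem a, hat⟩
  have hnorel : ∀ v, Legit J ty v → ¬ Rel J ty v u := by
    intro v hv h
    rcases h with h | ⟨h, _, _⟩
    · exact hunl (h ▸ hv)
    · exact h hv
  -- (i)
  have h0 : ∀ a, 0 ∉ σ a := by
    intro a ha
    refine hnorel [a] (legit_single J ty a) (hsep [a] (by simp) ?_)
    rw [Tm.nf_zero (List.mem_flatMap.2 ⟨a, by simp, ha⟩),
      Tm.nf_zero (List.mem_flatMap.2 ⟨a, humem a, ha⟩)]
  have h0' : ∀ v : List (Option (Fin m)), 0 ∉ v.flatMap σ := by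
    intro v h
    obtain ⟨a, _, ha⟩ := List.mem_flatMap.1 h
    exact h0 a ha
  have hunf : ¬ τ.Free (u.flatMap σ) := by
    refine Tm.not_free_of_len ?_
    rw [hlen]
    exact lt_of_lt_of_le hul (length_le_flatMap fun a _ => hσ a)
  have key : ∀ v : List (Option (Fin m)), v ≠ [] → ¬ τ.Free (v.flatMap σ) →
      (∀ t ∈ τ.seeds, t ∈ u.flatMap σ → t ∈ v.flatMap σ) → (v.flatMap σ).sum % 2 = 0 →
      Rel J ty v u := by
    intro v hv hvf hs hp
    refine hsep v hv (Tm.nf_eq_of_long (h0' v) (h0' u) hvf hunf ?_ (by rw [hp, hu'sum]))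
    intro c hc
    exact ⟨hsub v c, hs c hc⟩
  -- (ii)
  have hodd : ∀ x : Fin m, (σ (some x)).sum % 2 = 1 := by
    intro x
    by_contra hx
    have hr := key (u ++ [some x]) (by simp) (by
      refine Tm.not_free_of_len ?_
      rw [hlen]
      refine lt_of_lt_of_le ?_ (length_le_flatMap fun a _ => hσ a)
      rw [List.length_append]
      omega) (by
      intro t _ ht
      rw [List.flatMap_append, List.mem_append]
      exact Or.inl ht) (by
      rw [List.flatMap_append, List.sum_append]
      simp only [List.flatMap_cons, List.flatMap_nil, List.append_nil]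
      omega)
    rcases hr with h | ⟨_, _, h⟩
    · have := congrArg List.length h
      simp at this
    · have h2 : par P [some x] = 1 := par_singleton_pos (by simp [hP])
      rw [par_append] at h
      rw [hupar, h2] at h
      omega
  have heven : (σ none).sum % 2 = 0 := by
    by_contra hx
    have hx1 := hodd ⟨0, hm⟩
    have hr := key (u ++ [some ⟨0, hm⟩, none]) (by simp) (by
      refine Tm.not_free_of_len ?_
      rw [hlen]
      refine lt_of_lt_of_le ?_ (length_le_flatMap fun a _ => hσ a)
      rw [List.length_append]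
      omega) (by
      intro t _ ht
      rw [List.flatMap_append, List.mem_append]
      exact Or.inl ht) (by
      rw [List.flatMap_append, List.sum_append]
      simp only [List.flatMap_cons, List.flatMap_nil, List.append_nil, List.sum_append]
      omega)
    rcases hr with h | ⟨_, _, h⟩
    · have := congrArg List.length h
      simp at this
    · have h2 : par P [some ⟨0, hm⟩, none] = 1 := by
        rw [par_cons_pos (p := P) (by simp [hP]), par_singleton_neg (p := P) (by simp [hP])]
      rw [par_append] at h
      rw [hupar, h2] at h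
      omega
  have hparP : ∀ v : List (Option (Fin m)), (v.flatMap σ).sum % 2 = par P v := by
    intro v
    rw [sum_flatMap_mod]
    refine par_congr fun a _ => ?_
    rcases a with _ | x
    · simp [hP, heven]
    · simp [hP, hodd x]
  -- choice of letters
  have hch : ∀ t : ℕ, ∃ a : Option (Fin m), t ∈ u.flatMap σ → t ∈ σ a := by
    intro t
    by_cases ht : t ∈ u.flatMap σ
    · obtain ⟨a, _, ha⟩ := List.mem_flatMap.1 ht
      exact ⟨a, fun _ => ha⟩
    · exact ⟨none, fun h => absurd h ht⟩
  choose at_ hat using hch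
  have hcard : (τ.seeds.toFinset.image at_).card ≤ 5 :=
    Finset.card_image_le.trans ((List.toFinset_card_le _).trans hwf.seeds_le)
  -- (iii)
  have hgen : ∀ a, ∃ c, σ a = [c] ∧ τ.cols c := by
    intro a
    by_contra hcon
    push Not at hcon
    obtain ⟨v, hv1, hv2, hv3, hv4⟩ := hW J hJ m ty hty (insert a (τ.seeds.toFinset.image at_))
      ((Finset.card_insert_le _ _).trans (by omega))
    refine hnorel v hv1 (key v ?_ ?_ ?_ ?_)
    · intro h
      rw [h] at hv2
      have := hwf.len_ge
      rw [hlen] at this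
      simp at hv2
      omega
    · have hav : a ∈ v := (hv4 a).2 (Or.inl (Finset.mem_insert_self _ _))
      by_cases h2 : 2 ≤ (σ a).length
      · refine Tm.not_free_of_len ?_
        rw [hlen, ← hv2]
        exact length_lt_flatMap (fun b _ => hσ b) hav h2
      · have h1 : (σ a).length = 1 := by
          have := List.length_pos_iff.2 (hσ a)
          omega
        obtain ⟨c, hc⟩ := List.length_eq_one_iff.1 h1
        refine Tm.not_free_of_col (c := c) (List.mem_flatMap.2 ⟨a, hav, by rw [hc]; simp⟩) ?_
        exact hcon c hc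
    · intro t ht htu
      refine List.mem_flatMap.2 ⟨at_ t, (hv4 _).2 (Or.inl ?_), hat t htu⟩
      exact Finset.mem_insert_of_mem (Finset.mem_image_of_mem _ (List.mem_toFinset.2 ht))
    · rw [hparP]; exact hv3
  choose c hc1 hc2 using hgen
  have hflat : ∀ v : List (Option (Fin m)), v.flatMap σ = v.map c := fun v =>
    flatMap_eq_map fun a _ => hc1 a
  have hcp : ∀ g, (g ≠ none ↔ c g % 2 = 1) := by
    intro g
    rcases g with _ | x
    · have := heven
      rw [hc1 none] at this
      simp at this
      constructor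
      · intro h; exact absurd rfl h
      · intro h; omega
    · have := hodd x
      rw [hc1 (some x)] at this
      simpa using this
  have hfam : InFam' J τ := by
    rcases hτ with h | ⟨g, _, _, rfl⟩
    · exact h
    · exfalso
      have h1 := FR_even (hc2 (some ⟨0, hm⟩))
      have h2 := (hcp (some ⟨0, hm⟩)).1 (by simp)
      omega
  -- (iv)
  have hfull : ∀ s ∈ τ.seeds, s ∈ u.flatMap σ := by
    by_contra hcon
    push Not at hcon
    obtain ⟨s0, hs0, hs0'⟩ := hcon
    obtain ⟨v, hv1, hv2, hv3, hv4⟩ := hW J hJ m ty hty (τ.seeds.toFinset.image at_)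
      (hcard.trans (by omega))
    refine hnorel v hv1 (key v ?_ ?_ ?_ ?_)
    · intro h
      rw [h] at hv2
      have := hwf.len_ge
      rw [hlen] at this
      simp at hv2
      omega
    · refine Tm.not_free_of_bad (List.infix_refl _) (bad_of_not_full hfam ?_ ?_ ?_)
      · rw [hflat, List.length_map, hv2]
      · rw [hparP]; exact hv3
      · intro h
        exact hs0' (hsub v s0 (h s0 hs0))
    · intro t ht htu
      refine List.mem_flatMap.2 ⟨at_ t, (hv4 _).2 (Or.inl ?_), hat t htu⟩
      exact Finset.mem_image_of_mem _ (List.mem_toFinset.2 ht)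
    · rw [hparP]; exact hv3
  refine ⟨hfam, c, fun g => ⟨hc2 g, hcp g⟩, ?_, ?_⟩
  · intro s hs
    have := hfull s hs
    rw [hflat] at this
    obtain ⟨g, _, hg⟩ := List.mem_map.1 this
    exact ⟨g, hg⟩
  · intro v hv hvf hbad
    have hv0 : v ≠ [] := by
      rintro rfl
      have := hwf.bad_ge _ hbad
      simp at this
    refine hnorel v hv (key v hv0 ?_ ?_ ?_)
    · rw [hflat]
      exact Tm.not_free_of_bad (List.infix_refl _) hbad
    · intro t ht _
      rw [hflat]
      exact hvf t ht
    · rw [hflat]
      exact hwf.bad_even _ hbad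

end Pool.Agent.Lib.MP_226ef1_lc.U.H86
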