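import Pool.Agent.Lib.MP_226ef1_lc.U.Iface
import Pool.Agent.Lib.MP_226ef1_lc.U.Tools

/-!
# Module TA2 (Paper 4.1, part (v))
-/

set_option autoImplicit false

namespace Pool.Agent.Lib.MP_226ef1_lc.U.H86

open Pool.Agent.Lib.MP_226ef1_lc.U

section words
variable {V : Type}

theorem rep_eq : ∀ (k n : ℕ) (b y : V) (post rest : List (Option V)),
    List.replicate k none ++ some b :: post = List.replicate n none ++ some y :: rest →
      k = n ∧ b = y ∧ post = rest := by
  intro k
  induction k with
  | zero =>
    intro n b y post rest h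
    rcases n with _ | n
    · simp only [List.replicate_zero, List.nil_append, List.cons.injEq, Option.some.injEq] at h
      exact ⟨rfl, h.1, h.2⟩
    · rw [List.replicate_succ] at h
      simp at h
  | succ k ih =>
    intro n b y post rest h
    rcases n with _ | n
    · rw [List.replicate_succ] at h
      simp at h
    · rw [List.replicate_succ, List.replicate_succ] at h
      simp only [List.cons_append, List.cons.injEq, true_and] at h
      obtain ⟨h1, h2, h3⟩ := ih n b y post rest h
      exact ⟨by omega, h2, h3⟩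

theorem rep_split : ∀ (n : ℕ) (pre : List (Option V)) (a y : V) (X rest : List (Option V)),
    pre ++ some a :: X = List.replicate n none ++ some y :: rest →
      ∃ pre', pre' ++ some a :: X = some y :: rest := by
  intro n
  induction n with
  | zero =>
    intro pre a y X rest h
    exact ⟨pre, by simpa using h⟩
  | succ n ih =>
    intro pre a y X rest h
    rw [List.replicate_succ] at h
    rcases pre with _ | ⟨q, pre⟩
    · simp at h
    · simp only [List.cons_append, List.cons.injEq] at h
      exact ih pre a y X rest h.2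

/-- position of a block in a word that starts with a block -/
theorem blk_step {pre post rest : List (Option V)} {a b x y : V} {k n : ℕ}
    (h : pre ++ (some a :: (List.replicate k none ++ some b :: post)) =
      some x :: (List.replicate n none ++ some y :: rest)) :
    (a = x ∧ k = n ∧ b = y) ∨
      ∃ pre', pre' ++ (some a :: (List.replicate k none ++ some b :: post)) = some y :: rest := by
  rcases pre with _ | ⟨q, pre⟩
  · left
    simp only [List.nil_append, List.cons.injEq, Option.some.injEq] at h
    obtain ⟨h1, h2, _⟩ := rep_eq _ _ _ _ _ _ h.2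
    exact ⟨h.1, h1, h2⟩
  · right
    simp only [List.cons_append, List.cons.injEq] at h
    exact rep_split n pre a y _ rest h.2

theorem blk_end {pre post : List (Option V)} {a b y : V} {k : ℕ}
    (h : pre ++ (some a :: (List.replicate k none ++ some b :: post)) = [some y]) : False := by
  have := congrArg List.length h
  simp at this
  omega

end words

theorem tpx_ne {J : TS} {V : Type} {ty : V → V → ℕ} {x y : V} (h : x ≠ y) :
    tpx J ty x y = J.p (ty x y) := by
  unfold tpx
  rw [if_neg h]

theorem tpx_self {J : TS} {V : Type} {ty : V → V → ℕ} (x : V) : tpx J ty x x = 1 := by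
  unfold tpx
  rw [if_pos rfl]

theorem tpx_le {J : TS} (hJ : J.WF) {V : Type} {ty : V → V → ℕ} (hty : CLS J ty) (x y : V) :
    tpx J ty x y ≤ J.bound + 1 := by
  by_cases h : x = y
  · subst h
    rw [tpx_self]
    omega
  · rw [tpx_ne h]
    have := hJ.lt _ (hty.mem x y h)
    unfold TS.p
    omega

/-- one block is legit -/
theorem legit_blk {J : TS} (hJ : J.WF) {V : Type} {ty : V → V → ℕ} (hty : CLS J ty) (x y : V) :
    Legit J ty (blk none (some x) (tpx J ty x y) (some y)) := by
  refine ⟨?_, ?_⟩
  · have := tpx_le hJ hty x y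
    unfold TS.L blk
    simp only [List.length_cons, List.length_append, List.length_replicate, List.length_nil]
    omega
  · rintro a b k ⟨s, t, h⟩
    unfold blk at h
    have h' : s ++ (some a :: (List.replicate k none ++ some b :: t)) =
        some x :: (List.replicate (tpx J ty x y) none ++ some y :: []) := by
      rw [← h]
      simp
    rcases blk_step h' with ⟨h1, h2, h3⟩ | ⟨pre, h1⟩
    · rw [h1, h2, h3]
    · exact (blk_end h1).elim

/-- the cyclic word of three mains is legit -/
theorem legit_cyc {J : TS} (hJ : J.WF) {V : Type} {ty : V → V → ℕ} (hty : CLS J ty) (x y z : V) :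
    Legit J ty (some x :: (List.replicate (tpx J ty x y) none ++ some y ::
      (List.replicate (tpx J ty y z) none ++ some z ::
        (List.replicate (tpx J ty z x) none ++ [some x])))) := by
  refine ⟨?_, ?_⟩
  · have h1 := tpx_le hJ hty x y
    have h2 := tpx_le hJ hty y z
    have h3 := tpx_le hJ hty z x
    unfold TS.L
    simp only [List.length_cons, List.length_append, List.length_replicate, List.length_nil]
    omega
  · rintro a b k ⟨s, t, h⟩
    unfold blk at h
    have h' : s ++ (some a :: (List.replicate k none ++ some b :: t)) =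
        some x :: (List.replicate (tpx J ty x y) none ++ some y ::
      (List.replicate (tpx J ty y z) none ++ some z ::
        (List.replicate (tpx J ty z x) none ++ [some x]))) := by
      rw [← h]
      simp
    rcases blk_step h' with ⟨h1, h2, h3⟩ | ⟨pre, h1⟩
    · rw [h1, h2, h3]
    rcases blk_step h1 with ⟨h1, h2, h3⟩ | ⟨pre, h1⟩
    · rw [h1, h2, h3]
    rcases blk_step h1 with ⟨h1, h2, h3⟩ | ⟨pre, h1⟩
    · rw [h1, h2, h3]
    · exact (blk_end h1).elim

theorem cc_odd (i : ℕ) : cc i % 2 = 1 := by unfold cc; omega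
theorem dd_odd (i : ℕ) : dd i % 2 = 1 := by unfold dd; omega
theorem kk_even (i : ℕ) : kk i % 2 = 0 := by unfold kk; omega
theorem oo_even (i : ℕ) : oo i % 2 = 0 := by unfold oo; omega

theorem mem_sds {r h c : ℕ} : c ∈ sds r h ↔ (∃ i, i < r ∧ c = cc i) ∨ (∃ i, i < h ∧ c = kk i) := by
  unfold sds
  simp only [List.mem_append, List.mem_map, List.mem_range]
  constructor
  · rintro (⟨i, hi, h⟩ | ⟨i, hi, h⟩)
    · exact Or.inl ⟨i, hi, h.symm⟩
    · exact Or.inr ⟨i, hi, h.symm⟩
  · rintro (⟨i, hi, h⟩ | ⟨i, hi, h⟩)
    · exact Or.inl ⟨i, hi, h.symm⟩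
    · exact Or.inr ⟨i, hi, h.symm⟩

/-- the word from (W) with one letter for every odd seed -/
theorem word_of_seeds (hW : WStatement) {J : TS} (hJ : J.WF) {m : ℕ} {ty : Fin m → Fin m → ℕ}
    (hty : CLS J ty) {r : ℕ} (hr : r ≤ 5) {c : Option (Fin m) → ℕ}
    (hc : ∀ g, (g ≠ none ↔ c g % 2 = 1)) (hs : ∀ i, i < r → ∃ g, c g = cc i) :
    ∃ v, Legit J ty v ∧ (v.map c).length = J.L ∧ (v.map c).sum % 2 = 0 ∧
      ∀ s, s ∈ v.map c ↔ (∃ i, i < r ∧ s = cc i) ∨ s = c none := by
  classical
  choose! g hg using hs
  obtain ⟨v, hv1, hv2, hv3, hv4⟩ := hW J hJ m ty hty ((Finset.range r).image g)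
    (Finset.card_image_le.trans (by rw [Finset.card_range]; omega))
  refine ⟨v, hv1, by rw [List.length_map, hv2], ?_, ?_⟩
  · rw [sum_map_mod (main := fun a : Option (Fin m) => a ≠ none) fun a _ => hc a]
    exact hv3
  · intro s
    rw [List.mem_map]
    constructor
    · rintro ⟨a, ha, rfl⟩
      rcases (hv4 a).1 ha with h | h
      · obtain ⟨i, hi, rfl⟩ := Finset.mem_image.1 h
        exact Or.inl ⟨i, Finset.mem_range.1 hi, hg i (Finset.mem_range.1 hi)⟩
      · exact Or.inr (by rw [h])
    · rintro (⟨i, hi, rfl⟩ | rfl)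
      · exact ⟨g i, (hv4 _).2 (Or.inl (Finset.mem_image_of_mem _ (Finset.mem_range.2 hi))), hg i hi⟩
      · exact ⟨none, (hv4 _).2 (Or.inr rfl), rfl⟩

/-- even colours in a template with one free even colour and no even seed -/
theorem even_col {l r m : ℕ} {D : ℕ → Prop} {bad : List ℕ → Prop} (hm : m = 1) {c : ℕ}
    (h : (mkT l r 0 D m bad).cols c) (h2 : c % 2 = 0) : c = oo 0 := by
  subst hm
  rcases h with ⟨i, _, h⟩ | ⟨i, hi, _⟩ | ⟨k, _, h⟩ | ⟨i, hi, h⟩
  · have := cc_odd i; omega
  · omega
  · have := dd_odd k; omega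
  · have : i = 0 := by omega
    rw [h, this]

theorem ta2 (hW : WStatement) : Ta2Statement := by
  classical
  intro J hJ m ty hty τ hτ c hc hs
  have hcn : c none % 2 = 0 := by
    by_contra h
    have : c none % 2 = 1 := by omega
    exact (hc none).2.2 this rfl
  have hpar : ∀ g, (g ≠ none ↔ c g % 2 = 1) := fun g => (hc g).2
  rcases hτ with rfl | rfl | ⟨r, hr1, hr5, rfl⟩ | ⟨r, hr1, hr4, rfl⟩ | ⟨r, h, hh, hr5, rfl⟩
  · -- T1
    have hno : c none = oo 0 := even_col rfl (hc none).1 hcn
    have hseed : ∀ s ∈ (T1 J).seeds, s = cc 0 := by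
      intro s hs
      rcases mem_sds.1 hs with ⟨i, hi, h⟩ | ⟨i, hi, _⟩
      · have : i = 0 := by omega
        rw [h, this]
      · omega
    obtain ⟨g, hg⟩ := hs (cc 0) (mem_sds.2 (Or.inl ⟨0, by omega, rfl⟩))
    have hgn : g ≠ none := by
      rw [hpar, hg]
      exact cc_odd 0
    obtain ⟨x, rfl⟩ := Option.ne_none_iff_exists'.1 hgn
    have hmapb : ∀ y n, (blk none (some x) n (some y)).map c = blk (oo 0) (cc 0) n (c (some y)) := by
      intro y n
      unfold blk
      simp [hg, hno]
    have hlen : ∀ y : Fin m, ∀ b, (blk (oo 0) (cc 0) (tpx J ty x y) b).length ≤ J.L := by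
      intro y b
      have := tpx_le hJ hty x y
      unfold TS.L blk
      simp only [List.length_cons, List.length_append, List.length_replicate, List.length_nil]
      omega
    have hful : ∀ y n, ∀ s ∈ (T1 J).seeds, s ∈ (blk none (some x) n (some y)).map c := by
      intro y n s hs
      rw [hseed s hs, hmapb]
      unfold blk
      simp
    by_cases hex : ∃ y, y ≠ x ∧ c (some y) = cc 0
    · obtain ⟨y, hyx, hy⟩ := hex
      refine ⟨_, legit_blk hJ hty x y, hful _ _, Or.inr ⟨?_, Or.inr (Or.inr ⟨tpx J ty x y, ?_, ?_⟩)⟩⟩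
      · rw [hmapb]; exact hlen _ _
      · rw [tpx_ne hyx.symm]
        unfold TS.p
        omega
      · rw [hmapb, hy]
    · push Not at hex
      obtain ⟨y, hyx, hy⟩ := hty.succ x
      have hyodd : c (some y) % 2 = 1 := (hpar (some y)).1 (by simp)
      have hyd : ∃ k, J.inJ k = true ∧ J.succ k = false ∧ c (some y) = dd k := by
        rcases (hc (some y)).1 with ⟨i, hi, h⟩ | ⟨i, hi, _⟩ | ⟨k, hk, h⟩ | ⟨i, hi, h⟩
        · exfalso
          have : i = 0 := by omega
          rw [this] at h
          exact hex y hyx h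
        · omega
        · exact ⟨k, hk.1, hk.2, h⟩
        · have := oo_even i
          omega
      obtain ⟨k, hk1, hk2, hk3⟩ := hyd
      refine ⟨_, legit_blk hJ hty x y, hful _ _, Or.inr ⟨?_, Or.inl ⟨k, tpx J ty x y, hk1, hk2, ?_, ?_⟩⟩⟩
      · rw [hmapb]; exact hlen _ _
      · rw [tpx_ne hyx.symm]
        unfold TS.p
        intro h
        have : ty x y = k := by omega
        rw [this, hk2] at hy
        exact absurd hy (by simp)
      · rw [hmapb, hk3]
  · -- L3
    have hno : c none = oo 0 := even_col rfl (hc none).1 hcn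
    have hget : ∀ i, i < 3 → ∃ x : Fin m, c (some x) = cc i := by
      intro i hi
      obtain ⟨g, hg⟩ := hs (cc i) (mem_sds.2 (Or.inl ⟨i, hi, rfl⟩))
      have hgn : g ≠ none := by
        rw [hpar, hg]
        exact cc_odd i
      obtain ⟨x, rfl⟩ := Option.ne_none_iff_exists'.1 hgn
      exact ⟨x, hg⟩
    obtain ⟨x, hx⟩ := hget 0 (by omega)
    obtain ⟨y, hy⟩ := hget 1 (by omega)
    obtain ⟨z, hz⟩ := hget 2 (by omega)
    have hxy : x ≠ y := by
      rintro rfl
      rw [hx] at hy
      unfold cc at hy
      omega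
    have hyz : y ≠ z := by
      rintro rfl
      rw [hy] at hz
      unfold cc at hz
      omega
    have hzx : z ≠ x := by
      rintro rfl
      rw [hz] at hx
      unfold cc at hx
      omega
    have hmap : (some x :: (List.replicate (tpx J ty x y) none ++ some y ::
      (List.replicate (tpx J ty y z) none ++ some z ::
        (List.replicate (tpx J ty z x) none ++ [some x])))).map c =
        cc 0 :: (List.replicate (J.p (ty x y)) (oo 0) ++ cc 1 ::
          (List.replicate (J.p (ty y z)) (oo 0) ++
            cc 2 :: (List.replicate (J.p (ty z x)) (oo 0) ++ [cc 0]))) := by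
      rw [tpx_ne hxy, tpx_ne hyz, tpx_ne hzx]
      simp [hx, hy, hz, hno]
    refine ⟨_, legit_cyc hJ hty x y z, ?_, Or.inr ⟨ty x y, ty y z, ty z x, hty.mem x y hxy,
      hty.mem y z hyz, hty.mem z x hzx, hty.legal x y z hxy hyz hzx, hmap⟩⟩
    intro s hs
    rw [hmap]
    rcases mem_sds.1 hs with ⟨i, hi, h⟩ | ⟨i, hi, _⟩
    · have : i = 0 ∨ i = 1 ∨ i = 2 := by omega
      rcases this with rfl | rfl | rfl <;> simp [h]
    · omega
  · -- G0
    have hno : c none = oo 0 := even_col rfl (hc none).1 hcn
    obtain ⟨v, hv1, hv2, hv3, hv4⟩ := word_of_seeds hW hJ hty hr5 hpar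
      fun i hi => hs (cc i) (mem_sds.2 (Or.inl ⟨i, hi, rfl⟩))
    refine ⟨v, hv1, ?_, Or.inr ⟨hv2, hv3, ?_⟩⟩
    · intro s hs
      rcases mem_sds.1 hs with h | ⟨i, hi, _⟩
      · exact (hv4 s).2 (Or.inl h)
      · omega
    · intro s
      rw [hv4, hno, mem_sds]
      constructor
      · rintro (h | h)
        · exact Or.inl (Or.inl h)
        · exact Or.inr h
      · rintro ((h | ⟨i, hi, _⟩) | h)
        · exact Or.inl h
        · omega
        · exact Or.inr h
  · -- G1
    have hno : c none = kk 0 := by
      obtain ⟨g, hg⟩ := hs (kk 0) (mem_sds.2 (Or.inr ⟨0, by omega, rfl⟩))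
      by_cases h : g = none
      · rw [← h, hg]
      · have := (hpar g).1 h
        have := kk_even 0
        omega
    obtain ⟨v, hv1, hv2, hv3, hv4⟩ := word_of_seeds hW hJ hty (by omega : r ≤ 5) hpar
      fun i hi => hs (cc i) (mem_sds.2 (Or.inl ⟨i, hi, rfl⟩))
    have hiff : ∀ s, s ∈ v.map c ↔ s ∈ sds r 1 := by
      intro s
      rw [hv4, hno, mem_sds]
      constructor
      · rintro (h | h)
        · exact Or.inl h
        · exact Or.inr ⟨0, by omega, h⟩
      · rintro (h | ⟨i, hi, h⟩)
        · exact Or.inl h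
        · have : i = 0 := by omega
          rw [this] at h
          exact Or.inr h
    exact ⟨v, hv1, fun s hs => (hiff s).2 hs, Or.inr ⟨hv2, hv3, hiff⟩⟩
  · -- FF
    exfalso
    have hk : ∀ i, i < h → c none = kk i := by
      intro i hi
      obtain ⟨g, hg⟩ := hs (kk i) (mem_sds.2 (Or.inr ⟨i, hi, rfl⟩))
      by_cases h : g = none
      · rw [← h, hg]
      · have := (hpar g).1 h
        have := kk_even i
        omega
    have h0 := hk 0 (by omega)
    have h1 := hk 1 (by omega)
    rw [h0] at h1
    unfold kk at h1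
    omega

end Pool.Agent.Lib.MP_226ef1_lc.U.H86
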