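import Pool.Agent.Lib.MP_226ef1_lc.U.H86.Ta2

/-!
# Module TASUB (Paper 4.2)
-/

set_option autoImplicit false

namespace Pool.Agent.Lib.MP_226ef1_lc.U.H86

open Pool.Agent.Lib.MP_226ef1_lc.U

theorem map_eq_blk {α : Type*} {c : α → ℕ} {w : List α} {o' x' n y' : ℕ}
    (h : w.map c = blk o' x' n y') :
    ∃ g W h', w = g :: (W ++ [h']) ∧ c g = x' ∧ (∀ t ∈ W, c t = o') ∧ W.length = n ∧
      c h' = y' := by
  unfold blk at h
  obtain ⟨g, l, rfl, hg, hl⟩ := List.map_eq_cons_iff.1 h
  obtain ⟨W, l2, rfl, hW, hl2⟩ := List.map_eq_append_iff.1 hl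
  obtain ⟨h', l3, rfl, hh', hl3⟩ := List.map_eq_cons_iff.1 hl2
  have hl3' : l3 = [] := List.map_eq_nil_iff.1 hl3
  subst hl3'
  rw [List.eq_replicate_iff] at hW
  refine ⟨g, W, h', rfl, hg, ?_, ?_, hh'⟩
  · intro t ht
    exact hW.2 (c t) (List.mem_map_of_mem ht)
  · have := hW.1
    rwa [List.length_map] at this

/-- free words of the templates `Free(g)` -/
theorem FR_free {J : TS} {g : ℕ} {w : List ℕ} (h0 : w ≠ []) (hl : w.length ≤ J.L)
    (hc : ∀ c ∈ w, (FR J g).cols c) : (FR J g).Free w :=
  ⟨h0, hl, hc, fun _ _ h => h⟩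

theorem flat_single {α : Type*} (c : α → ℕ) (v : List α) : (v.flatMap fun g => [c g]) = v.map c :=
  flatMap_eq_map fun _ _ => rfl

/-- short words -/
theorem sub_short (hF : FamWfStatement) {J : TS} (hJ : J.WF) {V : Type} (ty : V → V → ℕ)
    (Y : Set (Option V)) {u : List (Option V)} (hu : u ≠ []) (hl : u.length ≤ J.L) :
    SepR J ty Y u := by
  classical
  have hwf := (hF J hJ (FR J 1) (Or.inr ⟨1, le_rfl, by omega, rfl⟩)).1
  let c : Option V → ℕ := fun g => if g ∈ u then oo (u.idxOf g) else 0
  have hcu : ∀ g ∈ u, c g = oo (u.idxOf g) := fun g hg => if_pos hg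
  have hcn : ∀ g, g ∉ u → c g = 0 := fun g hg => if_neg hg
  have hoo : ∀ i, oo i ≠ 0 := by intro i; unfold oo; omega
  have hinj : ∀ g ∈ u, ∀ g', c g' = c g → g' = g := by
    intro g hg g' h
    have hg' : g' ∈ u := by
      by_contra hn
      rw [hcn g' hn, hcu g hg] at h
      exact hoo _ h.symm
    rw [hcu g hg, hcu g' hg'] at h
    have h1 : u.idxOf g' = u.idxOf g := by unfold oo at h; omega
    exact (List.idxOf_inj hg').1 h1
  have hu0 : 0 ∉ u.map c := by
    intro h
    obtain ⟨g, hg, h⟩ := List.mem_map.1 h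
    rw [hcu g hg] at h
    exact hoo _ h
  have huf : (FR J 1).Free (u.map c) := by
    refine FR_free (by simpa using hu) (by rw [List.length_map]; exact hl) ?_
    intro x hx
    obtain ⟨g, hg, rfl⟩ := List.mem_map.1 hx
    rw [hcu g hg]
    exact Or.inr (Or.inr (Or.inr ⟨_, lt_of_lt_of_le (List.idxOf_lt_length_iff.2 hg) hl, rfl⟩))
  refine ⟨FR J 1, Or.inr ⟨1, le_rfl, by omega, rfl⟩, fun g => [c g], fun g => by simp, ?_⟩
  intro v hv _ h
  rw [flat_single, flat_single] at h
  rcases Tm.of_nf_eq hwf (by simpa using hv) (by simpa using hu) h with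
    ⟨_, h2⟩ | ⟨_, _, _, h4⟩ | ⟨_, _, _, h4, _⟩
  · exact absurd h2 hu0
  · left
    have hlen : v.length = u.length := by
      have := congrArg List.length h4
      simpa using this
    refine List.ext_getElem hlen fun i h1 h2 => ?_
    have h5 : (v.map c)[i]'(by rw [List.length_map]; exact h1) =
        (u.map c)[i]'(by rw [List.length_map]; exact h2) := by
      simp only [h4]
    rw [List.getElem_map, List.getElem_map] at h5
    exact hinj _ (List.getElem_mem h2) _ h5
  · exact absurd huf h4

/-- long words in the hub alone -/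
theorem sub_hub (hF : FamWfStatement) {J : TS} (hJ : J.WF) {V : Type} (ty : V → V → ℕ)
    (Y : Set (Option V)) {u : List (Option V)} (hu : u ≠ []) (hl : J.L < u.length)
    (hun : ∀ g ∈ u, g = none) : SepR J ty Y u := by
  classical
  obtain ⟨hwf, hlen, _⟩ := hF J hJ (FR J 1) (Or.inr ⟨1, le_rfl, by omega, rfl⟩)
  let c : Option V → ℕ := fun g => if g = none then kk 0 else 0
  have hcn : c none = kk 0 := if_pos rfl
  have hcs : ∀ x, c (some x) = 0 := fun x => if_neg (by simp)
  have hk0 : kk 0 ≠ 0 := by unfold kk; omega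
  have hu0 : 0 ∉ u.map c := by
    intro h
    obtain ⟨g, hg, h⟩ := List.mem_map.1 h
    rw [hun g hg, hcn] at h
    exact hk0 h
  have hunf : ¬ (FR J 1).Free (u.map c) :=
    Tm.not_free_of_len (by rw [hlen, List.length_map]; exact hl)
  refine ⟨FR J 1, Or.inr ⟨1, le_rfl, by omega, rfl⟩, fun g => [c g], fun g => by simp, ?_⟩
  intro v hv _ h
  rw [flat_single, flat_single] at h
  rcases Tm.of_nf_eq hwf (by simpa using hv) (by simpa using hu) h with
    ⟨_, h2⟩ | ⟨_, _, h3, h4⟩ | ⟨h1, _, h3, _, _⟩
  · exact absurd h2 hu0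
  · rw [h4] at h3
    exact absurd h3 hunf
  · have hvn : ∀ g ∈ v, g = none := by
      intro g hg
      rcases g with _ | x
      · rfl
      · exact absurd (List.mem_map.2 ⟨some x, hg, hcs x⟩) h1
    right
    refine ⟨?_, fun h => absurd h.1 (by omega), ?_⟩
    · intro hleg
      refine h3 (FR_free (by simpa using hv) (by rw [List.length_map]; exact hleg.1) ?_)
      intro x hx
      obtain ⟨g, hg, rfl⟩ := List.mem_map.1 hx
      rw [hvn g hg, hcn]
      exact Or.inr (Or.inl ⟨0, by omega, rfl⟩)
    · rw [par_eq_zero_of_forall fun a ha => by simp [hvn a ha],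
        par_eq_zero_of_forall fun a ha => by simp [hun a ha]]

theorem replicate_none {V : Type} {W : List (Option V)} (h : ∀ t ∈ W, t = none) :
    W = List.replicate W.length none :=
  List.eq_replicate_iff.2 ⟨rfl, h⟩

/-- long words with mains -/
theorem sub_main (hF : FamWfStatement) {J : TS} (hJ : J.WF) {V : Type} {ty : V → V → ℕ}
    (hty : CLS J ty) (Y : Set (Option V)) {u : List (Option V)} (hu : u ≠ [])
    (hl : J.L < u.length) {x : V} (hx : some x ∈ u)
    (hsucc : ∀ y, some y ∈ u → y ≠ x → J.succ (ty x y) = false) : SepR J ty Y u := by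
  classical
  obtain ⟨hwf, hlen, _⟩ := hF J hJ (T1 J) (Or.inl (Or.inl rfl))
  let c : Option V → ℕ := fun g => match g with
    | none => oo 0
    | some y => if y = x then cc 0 else if some y ∈ u then dd (ty x y) else 0
  have hcn : c none = oo 0 := rfl
  have hcx : c (some x) = cc 0 := if_pos rfl
  have hcy : ∀ y, y ≠ x → some y ∈ u → c (some y) = dd (ty x y) := by
    intro y h1 h2
    show (if y = x then cc 0 else if some y ∈ u then dd (ty x y) else 0) = _
    rw [if_neg h1, if_pos h2]
  have hcz : ∀ y, y ≠ x → some y ∉ u → c (some y) = 0 := by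
    intro y h1 h2
    show (if y = x then cc 0 else if some y ∈ u then dd (ty x y) else 0) = _
    rw [if_neg h1, if_neg h2]
  have hcc0 : cc 0 = 5 := rfl
  have hoo0 : oo 0 = 4 := rfl
  have hdd : ∀ k, dd k = 4 * k + 7 := fun k => rfl
  -- reading colours
  have r1 : ∀ g, c g = cc 0 → g = some x := by
    intro g hg
    rcases g with _ | y
    · rw [hcn] at hg; omega
    · by_cases h1 : y = x
      · rw [h1]
      · by_cases h2 : some y ∈ u
        · rw [hcy y h1 h2, hdd] at hg; omega
        · rw [hcz y h1 h2] at hg; omega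
  have r2 : ∀ g, c g = oo 0 → g = none := by
    intro g hg
    rcases g with _ | y
    · rfl
    · by_cases h1 : y = x
      · rw [h1, hcx] at hg; omega
      · by_cases h2 : some y ∈ u
        · rw [hcy y h1 h2, hdd] at hg; omega
        · rw [hcz y h1 h2] at hg; omega
  have r3 : ∀ g k, c g = dd k → ∃ y, g = some y ∧ y ≠ x ∧ ty x y = k := by
    intro g k hg
    rcases g with _ | y
    · rw [hcn, hdd] at hg; omega
    · by_cases h1 : y = x
      · rw [h1, hcx, hdd] at hg; omega
      · by_cases h2 : some y ∈ u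
        · rw [hcy y h1 h2, hdd, hdd] at hg
          exact ⟨y, rfl, h1, by omega⟩
        · rw [hcz y h1 h2, hdd] at hg; omega
  have r4 : ∀ g, c g ≠ 0 → (T1 J).cols (c g) ∧ (g ≠ none ↔ c g % 2 = 1) := by
    intro g hg
    rcases g with _ | y
    · rw [hcn]
      exact ⟨Or.inr (Or.inr (Or.inr ⟨0, by omega, rfl⟩)), by simp [hoo0]⟩
    · by_cases h1 : y = x
      · rw [h1, hcx]
        exact ⟨Or.inl ⟨0, by omega, rfl⟩, by simp [hcc0]⟩
      · by_cases h2 : some y ∈ u
        · rw [hcy y h1 h2]
          refine ⟨Or.inr (Or.inr (Or.inl ⟨ty x y, ⟨hty.mem x y (Ne.symm h1), hsucc y h2 h1⟩, rfl⟩)), ?_⟩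
          have := dd_odd (ty x y)
          simp [this]
        · exact absurd (hcz y h1 h2) hg
  have hcu : ∀ g ∈ u, c g ≠ 0 := by
    intro g hg
    rcases g with _ | y
    · rw [hcn]; omega
    · by_cases h1 : y = x
      · rw [h1, hcx]; omega
      · rw [hcy y h1 hg, hdd]; omega
  have hu0 : 0 ∉ u.map c := by
    intro h
    obtain ⟨g, hg, h⟩ := List.mem_map.1 h
    exact hcu g hg h
  have hunf : ¬ (T1 J).Free (u.map c) :=
    Tm.not_free_of_len (by rw [hlen, List.length_map]; exact hl)
  refine ⟨T1 J, Or.inl (Or.inl rfl), fun g => [c g], fun g => by simp, ?_⟩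
  intro v hv _ h
  rw [flat_single, flat_single] at h
  rcases Tm.of_nf_eq hwf (by simpa using hv) (by simpa using hu) h with
    ⟨_, h2⟩ | ⟨_, _, h3, h4⟩ | ⟨h1, _, h3, _, h5, h6⟩
  · exact absurd h2 hu0
  · rw [h4] at h3
    exact absurd h3 hunf
  · have hcv : ∀ g ∈ v, c g ≠ 0 := fun g hg hn => h1 (List.mem_map.2 ⟨g, hg, hn⟩)
    have hxv : cc 0 ∈ v.map c :=
      (h5 (cc 0) (mem_sds.2 (Or.inl ⟨0, by omega, rfl⟩))).2
        (List.mem_map.2 ⟨some x, hx, hcx⟩)
    right
    refine ⟨?_, fun h => absurd h.1 (by omega), ?_⟩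
    · intro hleg
      obtain ⟨s, hs1, hs2⟩ := Tm.exists_bad_of_not_free (by simpa using hv)
        (by rw [List.length_map, hlen]; exact hleg.1)
        (fun d hd => by
          obtain ⟨g, hg, rfl⟩ := List.mem_map.1 hd
          exact (r4 g (hcv g hg)).1) h3
      rcases hs2 with hs2 | ⟨_, hs2⟩
      · have hsl : s.length = (v.map c).length := by
          have h7 := hs1.length_le
          have h8 := hleg.1
          have h9 := hs2.1
          rw [List.length_map] at h7 ⊢
          omega
        have hse : s = v.map c := hs1.eq_of_length hsl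
        refine hs2.2.2 ?_
        intro d hd
        rcases mem_sds.1 hd with ⟨i, hi, h⟩ | ⟨i, hi, _⟩
        · have : i = 0 := by omega
          rw [h, this, hse]
          exact hxv
        · omega
      · obtain ⟨a, w, b, hw, hws⟩ := exists_infix_of_map hs1
        have hinf : w <:+: v := ⟨a, b, hw.symm⟩
        rcases hs2 with ⟨k, n, hk1, hk2, hn, he⟩ | ⟨k, n, hk1, hk2, hn, he⟩ | ⟨n, hn, he⟩
        · rw [he] at hws
          obtain ⟨g, W, h', hwe, hg, hW, hWn, hh'⟩ := map_eq_blk hws
          obtain ⟨y, rfl, hyx, hyk⟩ := r3 _ _ hh'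
          have hg' := r1 _ hg
          have hW' := replicate_none fun t ht => r2 t (hW t ht)
          refine hn ?_
          have := hleg.2 x y n (by
            rw [hwe, hg', hW', hWn] at hinf
            exact hinf)
          rw [this, tpx_ne (Ne.symm hyx), hyk]
        · rw [he] at hws
          obtain ⟨g, W, h', hwe, hg, hW, hWn, hh'⟩ := map_eq_blk hws
          obtain ⟨y, rfl, hyx, hyk⟩ := r3 _ _ hg
          have hh'' := r1 _ hh'
          have hW' := replicate_none fun t ht => r2 t (hW t ht)
          refine hn ?_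
          have := hleg.2 y x n (by
            rw [hwe, hh'', hW', hWn] at hinf
            exact hinf)
          rw [this, tpx_ne hyx, hty.star x y (Ne.symm hyx), hyk]
        · rw [he] at hws
          obtain ⟨g, W, h', hwe, hg, hW, hWn, hh'⟩ := map_eq_blk hws
          have hg' := r1 _ hg
          have hh'' := r1 _ hh'
          have hW' := replicate_none fun t ht => r2 t (hW t ht)
          refine hn ?_
          have := hleg.2 x x n (by
            rw [hwe, hg', hh'', hW', hWn] at hinf
            exact hinf)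
          rw [this, tpx_self]
    · rw [sum_map_mod (main := fun a : Option V => a ≠ none) fun a ha => (r4 a (hcv a ha)).2,
        sum_map_mod (main := fun a : Option V => a ≠ none) fun a ha => (r4 a (hcu a ha)).2] at h6
      exact h6

theorem tasub (hF : FamWfStatement) : TaSubStatement := by
  classical
  intro J hJ m ty hty hirr X hX u hu huX
  by_cases hl : u.length ≤ J.L
  · exact sub_short hF hJ ty _ hu hl
  · push Not at hl
    by_cases hn : ∀ g ∈ u, g = none
    · exact sub_hub hF hJ ty _ hu hl hn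
    · push Not at hn
      obtain ⟨g, hg, hgn⟩ := hn
      obtain ⟨z, rfl⟩ := Option.ne_none_iff_exists'.1 hgn
      obtain ⟨x, hx, hs⟩ := hirr {y | some y ∈ u} ⟨z, hg⟩ (by
        intro h
        refine hX ?_
        rw [Set.eq_univ_iff_forall]
        intro y
        have hy : y ∈ {y | some y ∈ u} := by rw [h]; exact Set.mem_univ y
        exact huX (some y) hy y rfl)
      exact sub_main hF hJ hty _ hu hl hx fun y hy hyx => hs y hy hyx

end Pool.Agent.Lib.MP_226ef1_lc.U.H86
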